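import Mathlib

/-!
# `Γ_p(H) ≤ (4 / ln 2) α(H) ln n` for every uniform hypergraph
-/

set_option autoImplicit false

namespace Pool.Agent.Results.MP_8fb7e7_co.LogBound

open Finset

/-- An orientation of the `r`-uniform hypergraph with edge set `E`: every edge gets a linear
ordering of its vertices. -/
structure Orientation {V : Type*} (r : ℕ) (E : Finset (Finset V)) where
  /-- the ordered list of the vertices of an edge -/
  ord : E → Fin r ↪ V
  /-- it lists exactly the vertices of the edge -/
  range_ord : ∀ e : E, Set.range (ord e) = (e.1 : Set V)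

/-- `S` is a directed `p`-dominating set: every vertex outside `S` lies in an edge whose first `p`
vertices all belong to `S`. -/
def IsDirDom {V : Type*} {r : ℕ} {E : Finset (Finset V)} (D : Orientation r E) (p : ℕ)
    (S : Finset V) : Prop :=
  ∀ u, u ∉ S → ∃ e : E, u ∈ e.1 ∧ ∀ i : Fin r, (i : ℕ) < p → D.ord e i ∈ S

/-- The minimum size of a directed `p`-dominating set of an orientation. -/
noncomputable def dirDomNum {V : Type*} {r : ℕ} {E : Finset (Finset V)} (D : Orientation r E)
    (p : ℕ) : ℕ :=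
  sInf {k | ∃ S : Finset V, S.card = k ∧ IsDirDom D p S}

/-- The upper directed `p`-domination number: the maximum over all orientations. -/
noncomputable def upperDirDomNum {V : Type*} (r : ℕ) (E : Finset (Finset V)) (p : ℕ) : ℕ :=
  sSup {k | ∃ D : Orientation r E, dirDomNum D p = k}

/-- The independence number: the largest size of a set that contains no edge. -/
noncomputable def indepNum {V : Type*} (E : Finset (Finset V)) : ℕ :=
  sSup {k | ∃ S : Finset V, S.card = k ∧ ∀ e ∈ E, ¬ e ⊆ S}

section

variable {V : Type*} [Fintype V] [DecidableEq V] {r : ℕ} {E : Finset (Finset V)}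

omit [DecidableEq V] in
lemma indep_le (S : Finset V) (hS : ∀ e ∈ E, ¬ e ⊆ S) : S.card ≤ indepNum E := by
  apply le_csSup
  · refine ⟨Fintype.card V, ?_⟩
    rintro k ⟨T, rfl, _⟩
    exact Finset.card_le_univ T
  · exact ⟨S, rfl, hS⟩

/-- `u` is dominated by `S`. -/
def Dom (D : Orientation r E) (p : ℕ) (S : Finset V) (u : V) : Prop :=
  ∃ e : E, u ∈ e.1 ∧ ∀ i : Fin r, (i : ℕ) < p → D.ord e i ∈ S

omit [Fintype V] [DecidableEq V] in
lemma Dom.mono {D : Orientation r E} {p : ℕ} {S T : Finset V} {u : V} (h : Dom D p S u)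
    (hST : S ⊆ T) : Dom D p T u := by
  obtain ⟨e, he, h⟩ := h
  exact ⟨e, he, fun i hi => hST (h i hi)⟩

open Classical in
/-- the vertices of `T` that the other vertices of `T` do not dominate form an independent set -/
lemma key (D : Orientation r E) {p : ℕ} (hp : p < r) (T : Finset V) :
    (T.filter fun u => ¬ Dom D p (T.erase u) u).card ≤ indepNum E := by
  apply indep_le
  intro e he hsub
  let f := D.ord ⟨e, he⟩
  have hr : r - 1 < r := by omega
  have hmem : ∀ i, f i ∈ e := fun i => by
    have h := D.range_ord ⟨e, he⟩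
    have h2 : f i ∈ Set.range f := ⟨i, rfl⟩
    rw [h] at h2
    exact h2
  let u := f ⟨r - 1, hr⟩
  have hu := hsub (hmem ⟨r - 1, hr⟩)
  apply (Finset.mem_filter.1 hu).2
  refine ⟨⟨e, he⟩, hmem _, fun i hi => ?_⟩
  rw [Finset.mem_erase]
  refine ⟨fun h => ?_, (Finset.mem_filter.1 (hsub (hmem i))).1⟩
  have h3 := f.injective h
  rw [h3] at hi
  simp at hi
  omega

open Classical in
omit [Fintype V] in
lemma double_count (D : Orientation r E) (p : ℕ) (U : Finset V) (s : ℕ) :
    ∑ S ∈ U.powersetCard s, ((U \ S).filter fun u => ¬ Dom D p S u).card =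
      ∑ T ∈ U.powersetCard (s + 1), (T.filter fun u => ¬ Dom D p (T.erase u) u).card := by
  rw [← Finset.card_sigma, ← Finset.card_sigma]
  refine Finset.card_bij' (fun x _ => ⟨insert x.2 x.1, x.2⟩) (fun y _ => ⟨y.1.erase y.2, y.2⟩)
    ?_ ?_ ?_ ?_
  · rintro ⟨S, u⟩ h
    simp only [Finset.mem_sigma, Finset.mem_powersetCard, Finset.mem_filter,
      Finset.mem_sdiff] at h ⊢
    obtain ⟨⟨hS, hc⟩, ⟨huU, huS⟩, hd⟩ := h
    refine ⟨⟨Finset.insert_subset huU hS, by rw [Finset.card_insert_of_notMem huS, hc]⟩,
      Finset.mem_insert_self _ _, ?_⟩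
    rwa [Finset.erase_insert huS]
  · rintro ⟨T, u⟩ h
    simp only [Finset.mem_sigma, Finset.mem_powersetCard, Finset.mem_filter,
      Finset.mem_sdiff] at h ⊢
    obtain ⟨⟨hT, hc⟩, hu, hd⟩ := h
    refine ⟨⟨(Finset.erase_subset _ _).trans hT, by rw [Finset.card_erase_of_mem hu, hc]; rfl⟩,
      ⟨hT hu, Finset.notMem_erase _ _⟩, hd⟩
  · rintro ⟨S, u⟩ h
    simp only [Finset.mem_sigma, Finset.mem_powersetCard, Finset.mem_filter,
      Finset.mem_sdiff] at h
    simp only [Finset.erase_insert h.2.1.2]
  · rintro ⟨T, u⟩ h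
    simp only [Finset.mem_sigma, Finset.mem_powersetCard, Finset.mem_filter] at h
    simp only [Finset.insert_erase h.2.1]

open Classical in
lemma exists_good (D : Orientation r E) {p : ℕ} (hp : p < r) (U : Finset V) (s : ℕ)
    (hs : s ≤ U.card) (hα : s + 1 = 2 * indepNum E) :
    ∃ S ⊆ U, S.card = s ∧ 2 * ((U \ S).filter fun u => ¬ Dom D p S u).card ≤ U.card - s := by
  by_contra hcon
  push Not at hcon
  have h1 : ∑ T ∈ U.powersetCard (s + 1), (T.filter fun u => ¬ Dom D p (T.erase u) u).card ≤
      U.card.choose (s + 1) * indepNum E := by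
    calc _ ≤ ∑ T ∈ U.powersetCard (s + 1), indepNum E :=
          Finset.sum_le_sum fun T _ => key D hp T
      _ = _ := by rw [Finset.sum_const, Finset.card_powersetCard, smul_eq_mul]
  have hne : (U.powersetCard s).Nonempty := Finset.powersetCard_nonempty.2 hs
  have h2 : U.card.choose s * (U.card - s) <
      2 * ∑ S ∈ U.powersetCard s, ((U \ S).filter fun u => ¬ Dom D p S u).card := by
    rw [Finset.mul_sum]
    calc U.card.choose s * (U.card - s) = ∑ S ∈ U.powersetCard s, (U.card - s) := by
          rw [Finset.sum_const, Finset.card_powersetCard, smul_eq_mul]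
      _ < _ := Finset.sum_lt_sum_of_nonempty hne fun S hS => by
          obtain ⟨h3, h4⟩ := Finset.mem_powersetCard.1 hS
          exact hcon S h3 h4
  rw [double_count] at h2
  have h5 : U.card.choose (s + 1) * (2 * indepNum E) = U.card.choose s * (U.card - s) := by
    rw [← hα]
    exact Nat.choose_succ_right_eq U.card s
  have h6 : U.card.choose (s + 1) * (2 * indepNum E) =
      2 * (U.card.choose (s + 1) * indepNum E) := by ring
  omega

open Classical in
lemma iterate (D : Orientation r E) {p : ℕ} (hp : p < r) (s : ℕ) (hα : s + 1 = 2 * indepNum E)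
    (k : ℕ) : ∀ U : Finset V, U.card < 2 ^ k →
      ∃ S ⊆ U, S.card ≤ s * k ∧ ∀ u ∈ U, u ∉ S → Dom D p S u := by
  induction k with
  | zero =>
    intro U hU
    have hU0 : U = ∅ := by
      rw [← Finset.card_eq_zero]
      simpa using hU
    subst hU0
    exact ⟨∅, subset_rfl, by simp, by simp⟩
  | succ k ih =>
    intro U hU
    rcases Nat.lt_or_ge U.card s with h | h
    · refine ⟨U, subset_rfl, ?_, fun u h1 h2 => absurd h1 h2⟩
      nlinarith
    · obtain ⟨S, hSU, hSc, hgood⟩ := exists_good D hp U s h hα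
      obtain ⟨S', hS'U, hS'c, hdom⟩ := ih ((U \ S).filter fun u => ¬ Dom D p S u) (by
        rw [pow_succ] at hU
        omega)
      refine ⟨S ∪ S', ?_, ?_, ?_⟩
      · apply Finset.union_subset hSU
        exact hS'U.trans ((Finset.filter_subset _ _).trans Finset.sdiff_subset)
      · have := Finset.card_union_le S S'
        rw [Nat.mul_succ]
        omega
      · intro u hu hun
        rw [Finset.mem_union, not_or] at hun
        by_cases hd : Dom D p S u
        · exact hd.mono Finset.subset_union_left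
        · refine (hdom u ?_ hun.2).mono Finset.subset_union_right
          rw [Finset.mem_filter, Finset.mem_sdiff]
          exact ⟨⟨hu, hun.1⟩, hd⟩

lemma upper_le {p : ℕ} (hp : p < r) (k : ℕ) (hk : Fintype.card V < 2 ^ k)
    (hα : 1 ≤ indepNum E) : upperDirDomNum r E p ≤ (2 * indepNum E - 1) * k := by
  classical
  unfold upperDirDomNum
  rcases Set.eq_empty_or_nonempty {k | ∃ D : Orientation r E, dirDomNum D p = k} with h | h
  · rw [h]
    simp
  apply csSup_le h
  rintro m ⟨D, rfl⟩
  obtain ⟨S, _, hSc, hdom⟩ := iterate D hp (2 * indepNum E - 1) (by omega) k Finset.univ (by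
    rwa [Finset.card_univ])
  refine le_trans (Nat.sInf_le ⟨S, rfl, ?_⟩) hSc
  intro u hu
  exact hdom u (Finset.mem_univ u) hu

end

/-- Let `1 ≤ p ≤ r - 1`. Every `r`-uniform hypergraph on `n ≥ 2` vertices satisfies
`Γ_p(H) ≤ (4 / ln 2) α(H) ln n`. -/
theorem result (r p : ℕ) (_hp1 : 1 ≤ p) (hp : p ≤ r - 1) (V : Type*) [Fintype V]
    (hn : 2 ≤ Fintype.card V) (E : Finset (Finset V)) (hE : ∀ e ∈ E, e.card = r) :
    (upperDirDomNum r E p : ℝ) ≤
      (4 / Real.log 2) * (indepNum E : ℝ) * Real.log (Fintype.card V) := by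
  classical
  have hr : 2 ≤ r := by omega
  have hα : 1 ≤ indepNum E := by
    have : Nonempty V := Fintype.card_pos_iff.1 (by omega)
    obtain ⟨v⟩ := this
    have h := indep_le (E := E) {v} (by
      intro e he hsub
      have h1 := Finset.card_le_card hsub
      rw [hE e he, Finset.card_singleton] at h1
      omega)
    simpa using h
  have h1 := upper_le (V := V) (E := E) (r := r) (p := p) (by omega)
    (Nat.log 2 (Fintype.card V) + 1) (Nat.lt_pow_succ_log_self (by norm_num) _) hα
  have hlog2 : 0 < Real.log 2 := Real.log_pos (by norm_num)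
  have h2 : (Nat.log 2 (Fintype.card V) : ℝ) * Real.log 2 ≤ Real.log (Fintype.card V) := by
    rw [← Real.log_pow]
    apply Real.log_le_log (by positivity)
    exact_mod_cast Nat.pow_log_le_self 2 (by omega)
  have h3 : Real.log 2 ≤ Real.log (Fintype.card V) := by
    apply Real.log_le_log (by norm_num)
    exact_mod_cast hn
  have h4 : ((Nat.log 2 (Fintype.card V) + 1 : ℕ) : ℝ) ≤
      2 / Real.log 2 * Real.log (Fintype.card V) := by
    rw [div_mul_eq_mul_div, le_div_iff₀ hlog2]
    push_cast
    linarith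
  calc (upperDirDomNum r E p : ℝ)
      ≤ (((2 * indepNum E - 1) * (Nat.log 2 (Fintype.card V) + 1) : ℕ) : ℝ) := by
        exact_mod_cast h1
    _ ≤ (2 * (indepNum E : ℝ)) * ((Nat.log 2 (Fintype.card V) + 1 : ℕ) : ℝ) := by
        rw [Nat.cast_mul]
        apply mul_le_mul_of_nonneg_right _ (by positivity)
        exact_mod_cast Nat.sub_le _ _
    _ ≤ (2 * (indepNum E : ℝ)) * (2 / Real.log 2 * Real.log (Fintype.card V)) := by
        apply mul_le_mul_of_nonneg_left h4 (by positivity)
    _ = _ := by ring

end Pool.Agent.Results.MP_8fb7e7_co.LogBound
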